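import Mathlib

open TopologicalSpace Filter Topology

namespace Pool.Agent.Results.MP_1eaa31_an.SickProductMetrizable

universe u v w

/-- A compact space `K` is *sick* if there are a separable Banach lattice `E`, an element `x ≥ 0`
of `E`, and a vector lattice isomorphism of `C(K)` onto the principal ideal
`E_x = {y : |y| ≤ c x for some c > 0}`. Here the isomorphism is given as an injective linear map
`T : C(K) → E` that preserves the lattice operations and whose range is `E_x`. -/
def IsSick (K : Type u) [TopologicalSpace K] : Prop :=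
  ∃ (E : Type v) (_ : NormedAddCommGroup E) (_ : NormedSpace ℝ E) (_ : Lattice E)
    (_ : IsOrderedAddMonoid E) (_ : IsOrderedModule ℝ E) (_ : HasSolidNorm E)
    (_ : CompleteSpace E) (_ : SeparableSpace E) (x : E) (T : C(K, ℝ) →ₗ[ℝ] E),
    0 ≤ x ∧ Function.Injective T ∧ Set.range T = {y : E | ∃ c : ℝ, 0 < c ∧ |y| ≤ c • x} ∧
    (∀ f g, T (f ⊔ g) = T f ⊔ T g) ∧ (∀ f g, T (f ⊓ g) = T f ⊓ T g)

/-- A compact Hausdorff space with a countable family of continuous functions that separates
points is metrizable. -/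
theorem metrizable_of_separating {K : Type*} [TopologicalSpace K] [CompactSpace K] [T2Space K]
    (D : Set C(K, ℝ)) (hD : D.Countable) (hs : ∀ a b : K, a ≠ b → ∃ f ∈ D, f a ≠ f b) :
    MetrizableSpace K := by
  have : Countable D := hD.to_subtype
  let F : K → (D → ℝ) := fun a f => f.1 a
  have hF : Continuous F := continuous_pi fun f => f.1.continuous
  have hinj : Function.Injective F := by
    intro a b hab
    by_contra hne
    obtain ⟨f, hf, hfab⟩ := hs a b hne
    exact hfab (congrFun hab ⟨f, hf⟩)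
  exact (hF.isClosedEmbedding hinj).isEmbedding.metrizableSpace

section
variable {K : Type u} {L : Type v} [TopologicalSpace K] [TopologicalSpace L]

/-- The function `(x, l) ↦ f x * u l`. -/
def tens (f : C(K, ℝ)) (g : C(L, ℝ)) : C(K × L, ℝ) :=
  ⟨fun p => f p.1 * g p.2, by fun_prop⟩

@[simp] theorem tens_apply (f : C(K, ℝ)) (g : C(L, ℝ)) (p : K × L) :
    tens f g p = f p.1 * g p.2 := rfl

variable {E : Type w} [NormedAddCommGroup E] [NormedSpace ℝ E] [Lattice E]
  [IsOrderedAddMonoid E] [HasSolidNorm E]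

/-- Step 2: small functions. -/
theorem exists_small [CompactSpace K] [T2Space K] (hK : ¬ MetrizableSpace K) [SeparableSpace E]
    (T : C(K × L, ℝ) →ₗ[ℝ] E) (hsup : ∀ f g, T (f ⊔ g) = T f ⊔ T g)
    (P : Set K) (hP : P.Finite) (g : C(L, ℝ)) (hg : ∀ l, 0 ≤ g l) (ε : ℝ) (hε : 0 < ε) :
    ∃ (f : C(K, ℝ)) (a : K), (∀ b, 0 ≤ f b) ∧ (∀ b, f b ≤ 1) ∧ (∀ p ∈ P, f p = 0) ∧ f a = 1 ∧
      ‖T (tens f g)‖ < ε := by
  classical
  by_contra hcon
  push Not at hcon
  apply hK
  -- the space of functions vanishing on `P`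
  let J : Set C(K, ℝ) := {f | ∀ p ∈ P, f p = 0}
  have habs : ∀ f, ‖T |f|‖ = ‖T f‖ := by
    intro f
    have h1 : T |f| = |T f| := by
      show T (f ⊔ -f) = T f ⊔ -(T f)
      rw [hsup, map_neg]
    rw [h1, norm_abs_eq_norm]
  -- lower bound for nonnegative functions
  have hpos : ∀ f ∈ J, (∀ b, 0 ≤ f b) → ε * ‖f‖ ≤ ‖T (tens f g)‖ := by
    intro f hf hf0
    by_cases hzero : f = 0
    · rw [hzero]; simp
    have hn : 0 < ‖f‖ := norm_pos_iff.2 hzero
    have hne : Nonempty K := by
      by_contra hemp
      rw [not_nonempty_iff] at hemp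
      exact hzero (by ext a; exact (hemp.false a).elim)
    obtain ⟨a, ha⟩ : ∃ a, ‖f a‖ = ‖f‖ := by
      obtain ⟨a, -, ha⟩ := isCompact_univ.exists_isMaxOn (Set.univ_nonempty (α := K))
        (f.continuous.norm.continuousOn)
      refine ⟨a, le_antisymm (f.norm_coe_le_norm a) ?_⟩
      rw [ContinuousMap.norm_le _ (norm_nonneg _)]
      intro b
      exact ha (Set.mem_univ b)
    have hfa : f a = ‖f‖ := by
      rw [← ha, Real.norm_of_nonneg (hf0 a)]
    have h1 := hcon (‖f‖⁻¹ • f) a
      (by
        intro b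
        have := hf0 b
        simp only [ContinuousMap.smul_apply, smul_eq_mul]
        positivity)
      (by
        intro b
        simp only [ContinuousMap.smul_apply, smul_eq_mul]
        rw [inv_mul_le_iff₀ hn, mul_one]
        exact (le_abs_self _).trans (f.norm_coe_le_norm b))
      (by
        intro p hp
        simp only [ContinuousMap.smul_apply, smul_eq_mul]
        rw [hf p hp, mul_zero])
      (by
        simp only [ContinuousMap.smul_apply, smul_eq_mul]
        rw [hfa, inv_mul_cancel₀ hn.ne'])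
    have h2 : tens (‖f‖⁻¹ • f) g = ‖f‖⁻¹ • tens f g := by
      ext p
      simp [mul_assoc]
    rw [h2, map_smul, norm_smul, norm_inv, norm_norm] at h1
    rw [← div_eq_inv_mul, le_div_iff₀ hn] at h1
    exact h1
  -- lower bound for differences
  have hdiff : ∀ f ∈ J, ∀ f' ∈ J, ε * ‖f - f'‖ ≤ ‖T (tens f g) - T (tens f' g)‖ := by
    intro f hf f' hf'
    have h1 := hpos |f - f'| (by
      intro p hp
      rw [ContinuousMap.abs_apply, ContinuousMap.sub_apply, hf p hp, hf' p hp]
      simp) (fun b => by rw [ContinuousMap.abs_apply]; exact abs_nonneg _)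
    have h2 : tens |f - f'| g = |tens f g - tens f' g| := by
      ext p
      have := hg p.2
      simp only [tens_apply, ContinuousMap.abs_apply, ContinuousMap.sub_apply]
      rw [← sub_mul, abs_mul, abs_of_nonneg this]
    have h3 : ‖f - f'‖ ≤ ‖|f - f'|‖ := by
      rw [ContinuousMap.norm_le _ (norm_nonneg _)]
      intro b
      have h4 := (|f - f'|).norm_coe_le_norm b
      rw [ContinuousMap.abs_apply, Real.norm_eq_abs, abs_abs] at h4
      exact h4
    rw [h2, habs, map_sub] at h1
    exact (mul_le_mul_of_nonneg_left h3 hε.le).trans h1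
  -- a countable subset of `J` which is dense in `J`
  let S : Set E := (fun f => T (tens f g)) '' J
  have hsc : SecondCountableTopology E := UniformSpace.secondCountable_of_separable E
  obtain ⟨C, hCc, hCd⟩ := exists_countable_dense S
  have hpre : ∀ s : S, ∃ f ∈ J, T (tens f g) = s := fun s => s.2
  choose pre hpreJ hpre using hpre
  let D₁ : Set C(K, ℝ) := pre '' C
  have hD₁ : D₁.Countable := hCc.image _
  have hdense : ∀ f ∈ J, ∀ δ > 0, ∃ f' ∈ D₁, ‖f - f'‖ < δ := by
    intro f hf δ hδ
    obtain ⟨c, hc, hcd⟩ := Metric.dense_iff.1 hCd ⟨T (tens f g), ⟨f, hf, rfl⟩⟩ (ε * δ)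
      (by positivity)
    refine ⟨pre c, ⟨c, hcd, rfl⟩, ?_⟩
    have h1 := hdiff f hf (pre c) (hpreJ c)
    rw [hpre c] at h1
    have h2 : ‖T (tens f g) - (c : E)‖ < ε * δ := by
      rw [← dist_eq_norm, dist_comm]
      exact hc
    exact lt_of_mul_lt_mul_left (h1.trans_lt h2) hε.le
  -- Urysohn functions for the points of `P`
  have hury : ∀ p : K, ∃ φ : C(K, ℝ), Set.EqOn φ 0 (P \ {p}) ∧ Set.EqOn φ 1 {p} := by
    intro p
    obtain ⟨φ, h0, h1, -⟩ := exists_continuous_zero_one_of_isClosed
      (hP.subset Set.sdiff_subset : (P \ {p}).Finite).isClosed (isClosed_singleton (x := p))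
      (Set.disjoint_singleton_right.2 (by simp))
    exact ⟨φ, h0, h1⟩
  choose φ hφ0 hφ1 using hury
  refine metrizable_of_separating (D₁ ∪ φ '' P) (hD₁.union (hP.countable.image _)) ?_
  -- separation of a point outside `P` from any other point
  have hsep : ∀ a b : K, a ∉ P → a ≠ b → ∃ f ∈ D₁, f a ≠ f b := by
    intro a b ha hab
    obtain ⟨ψ, h0, h1, -⟩ := exists_continuous_zero_one_of_isClosed
      ((hP.insert b).isClosed) (isClosed_singleton (x := a))
      (Set.disjoint_singleton_right.2 (by
        rw [Set.mem_insert_iff]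
        rintro (h | h)
        · exact hab h
        · exact ha h))
    obtain ⟨f', hf', hf'n⟩ := hdense ψ (fun p hp => h0 (Set.mem_insert_of_mem _ hp)) (1 / 2)
      (by norm_num)
    refine ⟨f', hf', fun heq => ?_⟩
    have ha1 : ψ a = 1 := h1 rfl
    have hb1 : ψ b = 0 := h0 (Set.mem_insert _ _)
    have h2 := (ψ - f').norm_coe_le_norm a
    have h3 := (ψ - f').norm_coe_le_norm b
    rw [ContinuousMap.sub_apply, ha1, Real.norm_eq_abs] at h2
    rw [ContinuousMap.sub_apply, hb1, Real.norm_eq_abs] at h3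
    have h4 := abs_le.1 h2
    have h5 := abs_le.1 h3
    rw [heq] at h4
    linarith [h4.2, h5.1]
  intro a b hab
  by_cases ha : a ∈ P
  · by_cases hb : b ∈ P
    · refine ⟨φ a, Or.inr ⟨a, ha, rfl⟩, ?_⟩
      have h1 : φ a a = 1 := hφ1 a rfl
      have h2 : φ a b = 0 := hφ0 a ⟨hb, fun h => hab h.symm⟩
      rw [h1, h2]; exact one_ne_zero
    · obtain ⟨f, hf, hne⟩ := hsep b a hb hab.symm
      exact ⟨f, Or.inl hf, hne.symm⟩
  · obtain ⟨f, hf, hne⟩ := hsep a b ha hab
    exact ⟨f, Or.inl hf, hne⟩

/-- The main step: if `C(K × L)` is lattice isomorphic to a principal ideal of a separable Banach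
lattice and `L` is infinite, then `K` is metrizable. -/
theorem metrizable_left [CompactSpace K] [T2Space K] [CompactSpace L] [T2Space L] [Infinite L]
    [CompleteSpace E] [SeparableSpace E] (x : E) (T : C(K × L, ℝ) →ₗ[ℝ] E)
    (hinj : Function.Injective T)
    (hrange : Set.range T = {y : E | ∃ c : ℝ, 0 < c ∧ |y| ≤ c • x})
    (hsup : ∀ f g, T (f ⊔ g) = T f ⊔ T g) (hinf : ∀ f g, T (f ⊓ g) = T f ⊓ T g) :
    MetrizableSpace K := by
  classical
  by_contra hK
  have habs : ∀ f, T |f| = |T f| := by
    intro f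
    show T (f ⊔ -f) = T f ⊔ -(T f)
    rw [hsup, map_neg]
  have hmono : ∀ f g : C(K × L, ℝ), (∀ p, f p ≤ g p) → T f ≤ T g := by
    intro f g hfg
    have h1 : f ⊔ g = g := by
      ext p
      rw [ContinuousMap.sup_apply]
      exact max_eq_right (hfg p)
    rw [← h1, hsup]
    exact le_sup_left
  -- disjoint open sets and bump functions in `L`
  obtain ⟨V, hVinf, hVo, hVd⟩ := exists_seq_infinite_isOpen_pairwise_disjoint L
  choose l hl using fun n => (hVinf n).nonempty
  have hu : ∀ n, ∃ u : C(L, ℝ), Set.EqOn u 0 (V n)ᶜ ∧ Set.EqOn u 1 {l n} ∧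
      ∀ b, u b ∈ Set.Icc (0 : ℝ) 1 := fun n =>
    exists_continuous_zero_one_of_isClosed (hVo n).isClosed_compl (isClosed_singleton (x := l n))
      (Set.disjoint_singleton_right.2 (fun h => h (hl n)))
  choose u hu0 hu1 hu01 using hu
  have hul : ∀ n, u n (l n) = 1 := fun n => hu1 n rfl
  have hdisj : ∀ m n, m ≠ n → ∀ b, u m b ≠ 0 → u n b = 0 := by
    intro m n hmn b hb
    apply hu0 n
    intro hbn
    apply hb
    apply hu0 m
    intro hbm
    exact Set.disjoint_left.1 (hVd hmn) hbm hbn
  -- the recursive choice of functions and points of `K`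
  choose F A hF0 hF1 hFP hFA hFT using fun (n : ℕ) (P : Finset K) =>
    exists_small hK T hsup (P : Set K) P.finite_toSet (u n) (fun b => (hu01 n b).1)
      ((1 / 2 : ℝ) ^ n) (by positivity)
  let P : ℕ → Finset K := fun n => Nat.rec ∅ (fun n P => insert (A n P) P) n
  have hPs : ∀ n, P (n + 1) = insert (A n (P n)) (P n) := fun n => rfl
  have hPm : ∀ m n, m < n → A m (P m) ∈ P n := by
    intro m n hmn
    induction n with
    | zero => omega
    | succ n ih =>
      rw [hPs]
      rcases Nat.lt_succ_iff_lt_or_eq.1 hmn with h | h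
      · exact Finset.mem_insert_of_mem (ih h)
      · rw [h]; exact Finset.mem_insert_self _ _
  set f : ℕ → C(K, ℝ) := fun n => F n (P n) with hf
  set a : ℕ → K := fun n => A n (P n) with ha
  have hf0 : ∀ n b, 0 ≤ f n b := fun n b => hF0 n (P n) b
  have hf1 : ∀ n b, f n b ≤ 1 := fun n b => hF1 n (P n) b
  have hfa : ∀ n, f n (a n) = 1 := fun n => hFA n (P n)
  have hfz : ∀ m n, m < n → f n (a m) = 0 := fun m n hmn => hFP n (P n) _ (hPm m n hmn)
  have hfT : ∀ n, ‖T (tens (f n) (u n))‖ ≤ (1 / 2 : ℝ) ^ n := fun n => (hFT n (P n)).le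
  -- partial sums
  set g : ℕ → C(K × L, ℝ) := fun n => ∑ k ∈ Finset.range n, tens (f k) (u k) with hg
  have hgapp : ∀ n p, g n p = ∑ k ∈ Finset.range n, f k p.1 * u k p.2 := by
    intro n p
    simp only [hg, ContinuousMap.sum_apply, tens_apply]
  have hg0 : ∀ n p, 0 ≤ g n p := by
    intro n p
    rw [hgapp]
    exact Finset.sum_nonneg fun k _ => mul_nonneg (hf0 k _) (hu01 k _).1
  have hg1 : ∀ n p, g n p ≤ 1 := by
    intro n p
    rw [hgapp]
    by_cases h : ∃ k ∈ Finset.range n, u k p.2 ≠ 0
    · obtain ⟨k, hk, hku⟩ := h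
      rw [Finset.sum_eq_single_of_mem k hk (fun j _ hj => by
        rw [hdisj k j hj.symm _ hku, mul_zero])]
      exact mul_le_one₀ (hf1 k _) (hu01 k _).1 (hu01 k _).2
    · push Not at h
      rw [Finset.sum_eq_zero (fun k hk => by rw [h k hk, mul_zero])]
      exact zero_le_one
  have hsum : Summable (fun k => T (tens (f k) (u k))) :=
    Summable.of_norm_bounded summable_geometric_two hfT
  obtain ⟨y, hy⟩ := hsum
  have hlim : Tendsto (fun n => T (g n)) atTop (𝓝 y) := by
    have := hy.tendsto_sum_nat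
    simpa only [hg, map_sum] using this
  have hy0 : 0 ≤ y := by
    refine ge_of_tendsto' hlim fun n => ?_
    have := hmono 0 (g n) (fun p => hg0 n p)
    rwa [map_zero] at this
  have hy1 : y ≤ T 1 := le_of_tendsto' hlim fun n => hmono (g n) 1 (fun p => hg1 n p)
  -- the limit is in the range of `T`
  have hyr : y ∈ Set.range T := by
    have h1 : T 1 ∈ Set.range T := ⟨1, rfl⟩
    rw [hrange] at h1 ⊢
    obtain ⟨c, hc, hcx⟩ := h1
    refine ⟨c, hc, ?_⟩
    rw [abs_of_nonneg hy0]
    exact (hy1.trans (le_abs_self _)).trans hcx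
  obtain ⟨G, rfl⟩ := hyr
  -- the values of `G` at the points `(b, l k)`
  have hGk : ∀ k b, G (b, l k) = f k b := by
    intro k b
    set w : C(K × L, ℝ) := tens 1 (u k) with hw
    have hcut : ∀ n, k + 1 ≤ n → |g n - g (k + 1)| ⊓ w = 0 := by
      intro n hn
      ext p
      rw [ContinuousMap.inf_apply, ContinuousMap.abs_apply, ContinuousMap.sub_apply, hw,
        tens_apply, ContinuousMap.one_apply, one_mul, ContinuousMap.zero_apply]
      by_cases hk : u k p.2 = 0
      · rw [hk]
        exact min_eq_right (abs_nonneg _)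
      · have h1 : g n p - g (k + 1) p = 0 := by
          rw [hgapp, hgapp, Finset.sum_eq_single_of_mem k (Finset.mem_range.2 (by omega))
            (fun j _ hj => by rw [hdisj k j hj.symm _ hk, mul_zero]),
            Finset.sum_eq_single_of_mem k (Finset.mem_range.2 (by omega))
            (fun j _ hj => by rw [hdisj k j hj.symm _ hk, mul_zero]), sub_self]
        rw [h1, abs_zero]
        exact min_eq_left (hu01 k _).1
    have hT0 : T (|G - g (k + 1)| ⊓ w) = 0 := by
      have h1 : Tendsto (fun n => |T (g n) - T (g (k + 1))| ⊓ T w) atTop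
          (𝓝 (|T G - T (g (k + 1))| ⊓ T w)) := by
        have hcont : Continuous fun z : E => |z - T (g (k + 1))| ⊓ T w := by
          have h2 : Continuous fun z : E => |z - T (g (k + 1))| := by
            have h3 : (fun z : E => |z - T (g (k + 1))|) =
                fun z : E => (z - T (g (k + 1))) ⊔ -(z - T (g (k + 1))) := rfl
            rw [h3]
            fun_prop
          exact h2.inf continuous_const
        exact (hcont.tendsto _).comp hlim
      have h2 : Tendsto (fun n => |T (g n) - T (g (k + 1))| ⊓ T w) atTop (𝓝 0) := by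
        refine tendsto_const_nhds.congr' ?_
        filter_upwards [eventually_ge_atTop (k + 1)] with n hn
        rw [← map_sub, ← habs, ← hinf, hcut n hn, map_zero]
      rw [hinf, habs, map_sub]
      exact tendsto_nhds_unique h1 h2
    have hz : |G - g (k + 1)| ⊓ w = 0 := hinj (by rw [hT0, map_zero])
    have hzp := congrArg (fun h : C(K × L, ℝ) => h (b, l k)) hz
    simp only [ContinuousMap.inf_apply, ContinuousMap.abs_apply, ContinuousMap.sub_apply, hw,
      tens_apply, ContinuousMap.one_apply, one_mul, ContinuousMap.zero_apply, hul] at hzp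
    have h3 : g (k + 1) (b, l k) = f k b := by
      rw [hgapp, Finset.sum_eq_single_of_mem k (Finset.mem_range.2 (by omega))
        (fun j _ hj => by rw [hdisj k j hj.symm _ (by rw [hul]; exact one_ne_zero), mul_zero])]
      simp only [hul, mul_one]
    rw [h3] at hzp
    have h4 : |G (b, l k) - f k b| = 0 := by
      rcases min_choice |G (b, l k) - f k b| 1 with h | h
      · rw [h] at hzp; exact hzp
      · rw [h] at hzp; exact absurd hzp one_ne_zero
    exact sub_eq_zero.1 (abs_eq_zero.1 h4)
  -- contradiction by compactness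
  let H : C(L, C(K, ℝ)) := (G.comp ⟨Prod.swap, continuous_swap⟩).curry
  have hH : ∀ k, H (l k) = f k := by
    intro k
    ext b
    exact hGk k b
  obtain ⟨z, -, φ, hφ, hφl⟩ := (isCompact_range H.continuous).tendsto_subseq
    (x := fun k => H (l k)) (fun k => ⟨l k, rfl⟩)
  have hC := hφl.cauchySeq
  obtain ⟨N, hN⟩ := Metric.cauchySeq_iff'.1 hC 1 one_pos
  have h5 := hN (N + 1) (by omega)
  simp only [Function.comp, hH] at h5
  have h6 : φ N < φ (N + 1) := hφ (by omega)
  have h7 := ContinuousMap.dist_apply_le_dist (f := f (φ (N + 1))) (g := f (φ N)) (a (φ N))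
  rw [hfz _ _ h6, hfa, Real.dist_eq] at h7
  norm_num at h7
  linarith

end

theorem isSick_swap {K : Type u} {L : Type v} [TopologicalSpace K] [TopologicalSpace L]
    (h : IsSick.{max u v, w} (K × L)) : IsSick.{max u v, w} (L × K) := by
  obtain ⟨E, _, _, _, _, _, _, _, _, x, T, hx, hinj, hrange, hsup, hinf⟩ := h
  let S : C(L × K, ℝ) →ₗ[ℝ] C(K × L, ℝ) :=
    { toFun := fun f => f.comp ⟨Prod.swap, continuous_swap⟩
      map_add' := fun f g => rfl
      map_smul' := fun c f => rfl }
  have hS : Function.Bijective S := by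
    constructor
    · intro f g hfg
      ext p
      exact congrArg (fun h : C(K × L, ℝ) => h p.swap) hfg
    · intro f
      refine ⟨f.comp ⟨Prod.swap, continuous_swap⟩, ?_⟩
      ext p
      rfl
  refine ⟨E, inferInstance, inferInstance, inferInstance, inferInstance, inferInstance,
    inferInstance, inferInstance, inferInstance, x, T.comp S, hx, hinj.comp hS.1, ?_, ?_, ?_⟩
  · rw [← hrange]
    ext y
    constructor
    · rintro ⟨f, rfl⟩
      exact ⟨S f, rfl⟩
    · rintro ⟨f, rfl⟩
      obtain ⟨f', rfl⟩ := hS.2 f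
      exact ⟨f', rfl⟩
  · intro f g
    exact hsup (S f) (S g)
  · intro f g
    exact hinf (S f) (S g)

/-- **Main theorem.** If `K` and `L` are infinite compact Hausdorff spaces and `K × L` is sick,
then `K × L` is metrizable. -/
theorem result (K : Type u) (L : Type v) [TopologicalSpace K] [CompactSpace K] [T2Space K]
    [Infinite K] [TopologicalSpace L] [CompactSpace L] [T2Space L] [Infinite L]
    (h : IsSick.{max u v, w} (K × L)) : MetrizableSpace (K × L) := by
  have h' := isSick_swap h
  obtain ⟨E, _, _, _, _, _, _, _, _, x, T, -, hinj, hrange, hsup, hinf⟩ := h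
  obtain ⟨E', _, _, _, _, _, _, _, _, x', T', -, hinj', hrange', hsup', hinf'⟩ := h'
  have hK : MetrizableSpace K := metrizable_left x T hinj hrange hsup hinf
  have hL : MetrizableSpace L := metrizable_left x' T' hinj' hrange' hsup' hinf'
  infer_instance

end Pool.Agent.Results.MP_1eaa31_an.SickProductMetrizable
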